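import Pool.Agent.Y305.BC.Stm

/-!
# BC-ST: Stokes' theorem for the graph maps
-/

set_option autoImplicit false

open MeasureTheory Metric Set Filter Topology
open scoped ContDiff ENNReal

namespace Pool.Agent.Y688.BC

open Pool.Agent.Y305.BC

/-- the point as a continuous linear map -/
noncomputable def ptL : ℂ × ℂ →L[ℝ] E :=
  ((WithLp.prodContinuousLinearEquiv 2 ℝ ℂ ℂ).symm : ℂ × ℂ →L[ℝ] E)

lemma ptL_apply (z w : ℂ) : ptL (z, w) = pt z w := rfl

lemma hasDerivAt_ex (x : ℝ) : HasDerivAt ex (2 * Real.pi * Complex.I * ex x) x := by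
  have h1 : HasDerivAt (fun z : ℂ => Complex.exp (2 * Real.pi * z * Complex.I))
      (Complex.exp (2 * Real.pi * x * Complex.I) * (2 * Real.pi * Complex.I)) (x : ℂ) := by
    have h2 : HasDerivAt (fun z : ℂ => 2 * Real.pi * z * Complex.I) (2 * Real.pi * Complex.I)
        (x : ℂ) := by
      have := ((hasDerivAt_id' (x : ℂ)).const_mul (2 * (Real.pi : ℂ))).mul_const Complex.I
      simpa using this
    exact h2.cexp
  refine h1.comp_ofReal.congr_deriv ?_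
  unfold ex
  ring

lemma norm_ex (x : ℝ) : ‖ex x‖ = 1 := by
  unfold ex
  have : (2 * (Real.pi : ℂ) * x * Complex.I) = ((2 * Real.pi * x : ℝ) : ℂ) * Complex.I := by
    push_cast
    ring
  rw [this, Complex.norm_exp_ofReal_mul_I]

lemma norm_pol (r x : ℝ) (hr : 0 ≤ r) : ‖pol r x‖ = r := by
  unfold pol
  rw [norm_mul, norm_ex, mul_one, Complex.norm_real, Real.norm_of_nonneg hr]

lemma ex_one : ex 1 = ex 0 := by
  unfold ex
  have : (2 * (Real.pi : ℂ) * ((1 : ℝ) : ℂ) * Complex.I) = 2 * Real.pi * Complex.I := by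
    push_cast
    ring
  rw [this, Complex.exp_two_pi_mul_I]
  simp

/-- the derivatives of the polar coordinates -/
lemma fd_ex (p : ℝ × ℝ) : ∃ E' : ℝ × ℝ →L[ℝ] ℂ, HasFDerivAt (fun p : ℝ × ℝ => ex p.2) E' p ∧
    E' (1, 0) = 0 ∧ E' (0, 1) = 2 * Real.pi * Complex.I * ex p.2 := by
  refine ⟨_, (hasDerivAt_ex p.2).hasFDerivAt.comp p hasFDerivAt_snd, ?_, ?_⟩
  · simp
  · simp

lemma fd_pol (p : ℝ × ℝ) : ∃ Z' : ℝ × ℝ →L[ℝ] ℂ,
    HasFDerivAt (fun p : ℝ × ℝ => pol p.1 p.2) Z' p ∧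
    Z' (1, 0) = ex p.2 ∧ Z' (0, 1) = av p.1 p.2 := by
  obtain ⟨E', hE, hE1, hE2⟩ := fd_ex p
  have h1 : HasFDerivAt (fun p : ℝ × ℝ => ((p.1 : ℝ) : ℂ))
      (Complex.ofRealCLM.comp (ContinuousLinearMap.fst ℝ ℝ ℝ)) p :=
    Complex.ofRealCLM.hasFDerivAt.comp p hasFDerivAt_fst
  refine ⟨_, h1.mul hE, ?_, ?_⟩
  · simp [hE1]
  · simp only [add_apply, smul_apply, smul_eq_mul, hE2]
    simp only [ContinuousLinearMap.comp_apply, ContinuousLinearMap.coe_fst', Complex.ofRealCLM_apply,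
      Complex.ofReal_zero, mul_zero, add_zero]
    unfold av pol
    ring

section

variable {a b : ℝ} {F F' : ℂ → ℂ}

/-- the graph -/
noncomputable def G (F : ℂ → ℂ) (p : ℝ × ℝ) : E := pt (pol p.1 p.2) (F (pol p.1 p.2))

/-- the radial derivative -/
noncomputable def Gr (F' : ℂ → ℂ) (p : ℝ × ℝ) : E := tv F' (pol p.1 p.2) (ex p.2)

/-- the angular derivative -/
noncomputable def Gx (F' : ℂ → ℂ) (p : ℝ × ℝ) : E := tv F' (pol p.1 p.2) (av p.1 p.2)

lemma isOpen_ann : IsOpen {z : ℂ | a < ‖z‖ ∧ ‖z‖ < b} :=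
  (isOpen_lt continuous_const continuous_norm).inter (isOpen_lt continuous_norm continuous_const)

/-- the derivative is differentiable inside -/
lemma der2 (hN : Nice a b F F') (z : ℂ) (h1 : a < ‖z‖) (h2 : ‖z‖ < b) :
    ∃ c : ℂ, HasDerivAt F' c z := by
  have hO := isOpen_ann (a := a) (b := b)
  have hd : DifferentiableOn ℂ F {z : ℂ | a < ‖z‖ ∧ ‖z‖ < b} := fun z hz =>
    (hN.der z hz.1 hz.2).differentiableAt.differentiableWithinAt
  have h3 := hd.deriv hO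
  have h4 : DifferentiableAt ℂ (deriv F) z := h3.differentiableAt (hO.mem_nhds ⟨h1, h2⟩)
  refine ⟨_, h4.hasDerivAt.congr_of_eventuallyEq ?_⟩
  filter_upwards [hO.mem_nhds ⟨h1, h2⟩] with w hw
  exact (hN.der w hw.1 hw.2).deriv.symm

/-- the divergence -/
lemma fd_all (h0 : 0 ≤ a) (hN : Nice a b F F') {η : F1} (hη : ContDiff ℝ ∞ η) (p : ℝ × ℝ)
    (h1 : a < p.1) (h2 : p.1 < b) : ∃ f' g' : ℝ × ℝ →L[ℝ] ℝ,
    HasFDerivAt (fun p => η (G F p) (Gx F' p)) f' p ∧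
    HasFDerivAt (fun p => -(η (G F p) (Gr F' p))) g' p ∧
    f' (1, 0) + g' (0, 1) = d η (G F p) (Gr F' p) (Gx F' p) := by
  have hp : ‖pol p.1 p.2‖ = p.1 := norm_pol _ _ (h0.trans h1.le)
  obtain ⟨E', hE, hE1, hE2⟩ := fd_ex p
  obtain ⟨Z', hZ, hZ1, hZ2⟩ := fd_pol p
  have hF := hN.der (pol p.1 p.2) (by rw [hp]; exact h1) (by rw [hp]; exact h2)
  obtain ⟨c, hF'⟩ := der2 hN (pol p.1 p.2) (by rw [hp]; exact h1) (by rw [hp]; exact h2)
  set z := pol p.1 p.2 with hz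
  have hFZ : HasFDerivAt (fun p : ℝ × ℝ => F (pol p.1 p.2)) (F' z • Z') p := by
    have h3 := (hF.hasFDerivAt.restrictScalars ℝ).comp p hZ
    refine h3.congr_fderiv ?_
    ext <;> simp [mul_comm]
  have hF'Z : HasFDerivAt (fun p : ℝ × ℝ => F' (pol p.1 p.2)) (c • Z') p := by
    have h3 := (hF'.hasFDerivAt.restrictScalars ℝ).comp p hZ
    refine h3.congr_fderiv ?_
    ext <;> simp [mul_comm]
  have hAv : HasFDerivAt (fun p : ℝ × ℝ => av p.1 p.2) ((2 * Real.pi * Complex.I : ℂ) • Z') p :=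
    hZ.const_mul (2 * Real.pi * Complex.I : ℂ)
  have hG : HasFDerivAt (G F) (ptL.comp (Z'.prod (F' z • Z'))) p :=
    ptL.hasFDerivAt.comp p (hZ.prodMk hFZ)
  have hGx : HasFDerivAt (Gx F') (ptL.comp (((2 * Real.pi * Complex.I : ℂ) • Z').prod
      (F' z • ((2 * Real.pi * Complex.I : ℂ) • Z') + av p.1 p.2 • (c • Z')))) p :=
    ptL.hasFDerivAt.comp p (hAv.prodMk (hF'Z.mul hAv))
  have hGr : HasFDerivAt (Gr F') (ptL.comp (E'.prod
      (F' z • E' + ex p.2 • (c • Z')))) p :=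
    ptL.hasFDerivAt.comp p (hE.prodMk (hF'Z.mul hE))
  have hηG : HasFDerivAt (fun p => η (G F p)) ((fderiv ℝ η (G F p)).comp
      (ptL.comp (Z'.prod (F' z • Z')))) p :=
    ((hη.differentiable (by simp)).differentiableAt.hasFDerivAt (x := G F p)).comp p hG
  refine ⟨_, _, hηG.clm_apply hGx, (hηG.clm_apply hGr).neg, ?_⟩
  have e1 : (ptL.comp (Z'.prod (F' z • Z'))) (1, 0) = Gr F' p := by
    show ptL (Z' (1, 0), F' z * Z' (1, 0)) = _
    rw [hZ1, ptL_apply]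
    rfl
  have e2 : (ptL.comp (Z'.prod (F' z • Z'))) (0, 1) = Gx F' p := by
    show ptL (Z' (0, 1), F' z * Z' (0, 1)) = _
    rw [hZ2, ptL_apply]
    rfl
  have e3 : (ptL.comp (((2 * Real.pi * Complex.I : ℂ) • Z').prod
      (F' z • ((2 * Real.pi * Complex.I : ℂ) • Z') + av p.1 p.2 • (c • Z')))) (1, 0) =
      (ptL.comp (E'.prod (F' z • E' + ex p.2 • (c • Z')))) (0, 1) := by
    show ptL (2 * Real.pi * Complex.I * Z' (1, 0), F' z * (2 * Real.pi * Complex.I * Z' (1, 0)) +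
      av p.1 p.2 * (c * Z' (1, 0))) = ptL (E' (0, 1), F' z * E' (0, 1) + ex p.2 * (c * Z' (0, 1)))
    rw [hZ1, hZ2, hE2]
    congr 2
    ring
  simp only [add_apply, neg_apply,
    ContinuousLinearMap.flip_apply, ContinuousLinearMap.coe_comp, Function.comp_apply] at e1 e2 e3 ⊢
  rw [e1, e2, e3]
  show _ = (fderiv ℝ η (G F p)) (Gr F' p) (Gx F' p) - (fderiv ℝ η (G F p)) (Gx F' p) (Gr F' p)
  ring


lemma continuous_ex : Continuous ex :=
  continuous_iff_continuousAt.2 fun x => (hasDerivAt_ex x).continuousAt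

lemma continuous_pol : Continuous (fun p : ℝ × ℝ => pol p.1 p.2) :=
  (Complex.continuous_ofReal.comp continuous_fst).mul (continuous_ex.comp continuous_snd)

lemma continuous_av : Continuous (fun p : ℝ × ℝ => av p.1 p.2) :=
  continuous_const.mul continuous_pol

lemma mapsTo_pol (h0 : 0 ≤ a) : MapsTo (fun p : ℝ × ℝ => pol p.1 p.2) (Icc a b ×ˢ univ)
    {z : ℂ | a ≤ ‖z‖ ∧ ‖z‖ ≤ b} := by
  rintro p ⟨hp, -⟩
  show a ≤ ‖pol p.1 p.2‖ ∧ ‖pol p.1 p.2‖ ≤ b
  rw [norm_pol _ _ (h0.trans hp.1)]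
  exact hp

lemma cont_G (h0 : 0 ≤ a) (hN : Nice a b F F') : ContinuousOn (G F) (Icc a b ×ˢ univ) :=
  ptL.continuous.comp_continuousOn (continuous_pol.continuousOn.prodMk
    (hN.cont.comp continuous_pol.continuousOn (mapsTo_pol h0)))

lemma cont_F'Z (h0 : 0 ≤ a) (hN : Nice a b F F') :
    ContinuousOn (fun p : ℝ × ℝ => F' (pol p.1 p.2)) (Icc a b ×ˢ univ) :=
  hN.cont'.comp continuous_pol.continuousOn (mapsTo_pol h0)

lemma cont_Gr (h0 : 0 ≤ a) (hN : Nice a b F F') : ContinuousOn (Gr F') (Icc a b ×ˢ univ) :=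
  ptL.continuous.comp_continuousOn ((continuous_ex.comp continuous_snd).continuousOn.prodMk
    ((cont_F'Z h0 hN).mul (continuous_ex.comp continuous_snd).continuousOn))

lemma cont_Gx (h0 : 0 ≤ a) (hN : Nice a b F F') : ContinuousOn (Gx F') (Icc a b ×ˢ univ) :=
  ptL.continuous.comp_continuousOn (continuous_av.continuousOn.prodMk
    ((cont_F'Z h0 hN).mul continuous_av.continuousOn))

/-- the integrand -/
lemma cont_h (h0 : 0 ≤ a) (hN : Nice a b F F') {η : F1} (hη : ContDiff ℝ ∞ η) :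
    ContinuousOn (fun p => d η (G F p) (Gr F' p) (Gx F' p)) (Icc a b ×ˢ univ) := by
  have h1 : ContinuousOn (fun p => fderiv ℝ η (G F p)) (Icc a b ×ˢ univ) :=
    (hη.continuous_fderiv (by simp)).comp_continuousOn (cont_G h0 hN)
  exact ((h1.clm_apply (cont_Gr h0 hN)).clm_apply (cont_Gx h0 hN)).sub
    ((h1.clm_apply (cont_Gx h0 hN)).clm_apply (cont_Gr h0 hN))

/-- Stokes' theorem on the rectangle -/
lemma stokes (h0 : 0 ≤ a) (hab : a < b) (hN : Nice a b F F') {η : F1} (hη : ContDiff ℝ ∞ η) :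
    ∫ p in Icc (a, (0 : ℝ)) (b, 1), d η (G F p) (Gr F' p) (Gx F' p) =
      (∫ x in (0 : ℝ)..1, η (G F (b, x)) (Gx F' (b, x))) -
      ∫ x in (0 : ℝ)..1, η (G F (a, x)) (Gx F' (a, x)) := by
  classical
  have hsub : Icc (a, (0 : ℝ)) (b, 1) ⊆ Icc a b ×ˢ univ := by
    rw [Icc_prod_eq]
    exact prod_mono le_rfl (subset_univ _)
  have hIo : (Ioo a b ×ˢ Ioo (0 : ℝ) 1 : Set (ℝ × ℝ)) =ᵐ[volume] (Icc (a, (0 : ℝ)) (b, 1)) := by
    rw [Icc_prod_eq]
    exact Measure.set_prod_ae_eq Ioo_ae_eq_Icc Ioo_ae_eq_Icc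
  have hex : ∀ p : ℝ × ℝ, p ∈ Ioo a b ×ˢ Ioo (0 : ℝ) 1 → ∃ f' g' : ℝ × ℝ →L[ℝ] ℝ,
      HasFDerivAt (fun p => η (G F p) (Gx F' p)) f' p ∧
      HasFDerivAt (fun p => -(η (G F p) (Gr F' p))) g' p ∧
      f' (1, 0) + g' (0, 1) = d η (G F p) (Gr F' p) (Gx F' p) := fun p hp =>
    fd_all h0 hN hη p hp.1.1 hp.1.2
  choose! f' g' hf' hg' hfg using hex
  have hηG : ContinuousOn (fun p => η (G F p)) (Icc a b ×ˢ univ) :=
    hη.continuous.comp_continuousOn (cont_G h0 hN)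
  have hint : IntegrableOn (fun p => d η (G F p) (Gr F' p) (Gx F' p)) (Icc (a, (0 : ℝ)) (b, 1)) :=
    ((cont_h h0 hN hη).mono hsub).integrableOn_compact isCompact_Icc
  have hint' : IntegrableOn (fun p => f' p (1, 0) + g' p (0, 1)) (Icc (a, (0 : ℝ)) (b, 1)) := by
    rw [← integrableOn_congr_set_ae hIo] at hint ⊢
    exact hint.congr_fun (fun p hp => (hfg p hp).symm) (measurableSet_Ioo.prod measurableSet_Ioo)
  have key := integral_divergence_prod_Icc_of_hasFDerivAt_off_countable_of_le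
    (fun p => η (G F p) (Gx F' p)) (fun p => -(η (G F p) (Gr F' p))) f' g' (a, (0 : ℝ)) (b, 1)
    ⟨hab.le, zero_le_one⟩ ∅ countable_empty
    ((hηG.clm_apply (cont_Gx h0 hN)).mono hsub)
    (((hηG.clm_apply (cont_Gr h0 hN)).mono hsub).neg)
    (fun p hp => hf' p hp.1) (fun p hp => hg' p hp.1) hint'
  have e1 : ∫ p in Icc (a, (0 : ℝ)) (b, 1), d η (G F p) (Gr F' p) (Gx F' p) =
      ∫ p in Icc (a, (0 : ℝ)) (b, 1), f' p (1, 0) + g' p (0, 1) := by
    rw [← setIntegral_congr_set hIo, ← setIntegral_congr_set hIo]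
    exact setIntegral_congr_fun (measurableSet_Ioo.prod measurableSet_Ioo)
      fun p hp => (hfg p hp).symm
  rw [e1, key]
  have e2 : ∀ x : ℝ, G F (x, 1) = G F (x, 0) := by
    intro x
    unfold G pol
    rw [ex_one]
  have e3 : ∀ x : ℝ, Gr F' (x, 1) = Gr F' (x, 0) := by
    intro x
    unfold Gr pol
    simp only [ex_one]
  simp only [e2, e3]
  ring

/-- **BC-ST** -/
theorem st : S_ST := by
  intro hGR a b F F' h0 hab hN η hη
  have hgr := (hGR a b F F' h0 hab hN).2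
  have hS := stokes h0 hab hN hη
  have hIo : (Ioo a b ×ˢ Ioo (0 : ℝ) 1 : Set (ℝ × ℝ)) =ᵐ[volume] (Icc (a, (0 : ℝ)) (b, 1)) := by
    rw [Icc_prod_eq]
    exact Measure.set_prod_ae_eq Ioo_ae_eq_Icc Ioo_ae_eq_Icc
  have e1 : push (gr a b F) (rect a b) (d η) =
      ∫ z in rect a b, (fun p : ℝ × ℝ => d η (G F p) (Gr F' p) (Gx F' p))
        (Complex.measurableEquivRealProd z) := by
    unfold push
    refine setIntegral_congr_fun ?_ ?_
    · have h1 : rect a b = Complex.measurableEquivRealProd ⁻¹' (Ioo a b ×ˢ Ioo (0 : ℝ) 1) := by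
        ext z
        simp [rect]
      rw [h1]
      exact Complex.measurableEquivRealProd.measurable (measurableSet_Ioo.prod measurableSet_Ioo)
    · intro z hz
      have h2 := hgr z hz
      have h3 : gr a b F z = G F (z.re, z.im) := by
        unfold gr G
        rw [min_eq_right hz.1.2.le, max_eq_right hz.1.1.le]
      show d η (gr a b F z) (fderiv ℝ (gr a b F) z 1) (fderiv ℝ (gr a b F) z Complex.I) = _
      rw [h2.1, h2.2, h3]
      rfl
  have h1 : rect a b = Complex.measurableEquivRealProd ⁻¹' (Ioo a b ×ˢ Ioo (0 : ℝ) 1) := by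
    ext z
    simp [rect]
  rw [e1, h1]
  refine (Complex.volume_preserving_equiv_real_prod.setIntegral_preimage_emb
    Complex.measurableEquivRealProd.measurableEmbedding
    (fun p : ℝ × ℝ => d η (G F p) (Gr F' p) (Gx F' p)) (Ioo a b ×ˢ Ioo (0 : ℝ) 1)).trans ?_
  rw [setIntegral_congr_set hIo, hS]
  rfl

end

end Pool.Agent.Y688.BC
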